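import Pool.Agent.H37.EXC.DIWa

/-!
# EXC, module DIW: few quotients
-/

set_option autoImplicit false

namespace Pool.EXC

open Finset Pool.Agent.H98.ABCR Pool.SHA Pool.ABY Pool.VIO

theorem diw_log_prod (s : Finset ℕ) (hs : ∀ q ∈ s, 0 < q) :
    Real.log ((∏ q ∈ s, q : ℕ) : ℝ) = ∑ q ∈ s, Real.log q := by
  rw [Nat.cast_prod, Real.log_prod]
  intro q hq
  have := hs q hq
  positivity

theorem diw_M {T : Finset ℕ} {x m : ℕ → ℕ} {P h0 : ℝ} {g : ℕ} (hP : 0 < P)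
    (hT : ∀ t ∈ T, t.Prime ∧ 1 ≤ x t) (hm : ∀ t ∈ T, (m t : ℝ) ≤ x t / P + 1)
    (hsum : ∑ t ∈ T, (x t : ℝ) * Real.log t ≤ 2 * h0) :
    Real.log ((∏ t ∈ T.filter (fun t => ¬ t ∣ g), t ^ m t : ℕ) : ℝ) ≤
      Real.log ((∏ t ∈ T, t : ℕ) : ℝ) + 2 * h0 / P := by
  rw [diw_log_prod T fun t ht => (hT t ht).1.pos, Nat.cast_prod, Real.log_prod]
  · have h1 : ∑ t ∈ T.filter (fun t => ¬ t ∣ g), Real.log ((t ^ m t : ℕ) : ℝ) ≤
        ∑ t ∈ T, Real.log ((t ^ m t : ℕ) : ℝ) := by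
      refine Finset.sum_le_sum_of_subset_of_nonneg (Finset.filter_subset _ _) fun t _ _ => ?_
      exact Real.log_natCast_nonneg _
    have h2 : ∑ t ∈ T, Real.log ((t ^ m t : ℕ) : ℝ) ≤
        ∑ t ∈ T, (Real.log t + (x t : ℝ) * Real.log t / P) := by
      refine Finset.sum_le_sum fun t ht => ?_
      rw [Nat.cast_pow, Real.log_pow]
      have h3 := mul_le_mul_of_nonneg_right (hm t ht) (Real.log_natCast_nonneg t)
      have h4 : ((x t : ℝ) / P + 1) * Real.log t = Real.log t + (x t : ℝ) * Real.log t / P := by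
        ring
      linarith
    rw [Finset.sum_add_distrib, ← Finset.sum_div] at h2
    have h5 : (∑ t ∈ T, (x t : ℝ) * Real.log t) / P ≤ 2 * h0 / P :=
      div_le_div_of_nonneg_right hsum hP.le
    linarith
  · intro t ht
    have := (hT t (Finset.mem_filter.1 ht).1).1.pos
    positivity

/-- the data of an element of the set of pairs of tuples -/
theorem diw_mem {q g s : ℕ} {Z Δ ρ : ℝ} {E : Finset ℕ} (hE : ∀ j ∈ E, g ≤ j ∧ (j : ℝ) ≤ g + Δ)
    {w : (Fin s → ℕ) × (Fin s → ℕ)} (hw : w ∈ EnS (Sml q) (Cls q Z E) (un q) s ρ) :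
    Tup q g Z Δ w.1 ∧ Tup q g Z Δ w.2 ∧ ∃ N D : ℕ, 0 < N ∧ 0 < D ∧ N.Coprime q ∧ D.Coprime q ∧
      Real.log N ≤ ρ ∧ Real.log D ≤ ρ ∧
      wt w.1 ^ g * zt g w.1 * D ≡ wt w.2 ^ g * zt g w.2 * N [MOD q] := by
  classical
  unfold EnS at hw
  rw [Finset.mem_filter, Finset.mem_product] at hw
  obtain ⟨⟨hy, hy'⟩, N, D, hN, hD, cN, cD, lN, lD, hrel⟩ := hw
  have key : ∀ y : Fin s → ℕ, y ∈ (Fintype.piFinset fun _ : Fin s => Cls q Z E) →
      Tup q g Z Δ y := by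
    intro y hy
    rw [Fintype.mem_piFinset] at hy
    have h1 : ∀ j, 0 < y j ∧ (y j).Coprime q ∧ (rad (y j) : ℝ) ≤ Z ∧
        ∀ p ∈ (y j).primeFactors, (y j).factorization p ∈ E := by
      intro j
      have h2 := hy j
      unfold Cls at h2
      rw [Finset.mem_filter] at h2
      exact h2.2
    exact ⟨fun j => (h1 j).1, fun j => (h1 j).2.1, fun j => (h1 j).2.2.1,
      fun j p hp => hE _ ((h1 j).2.2.2 p hp)⟩
  have t1 := key _ hy
  have t2 := key _ hy'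
  refine ⟨t1, t2, N, D, hN, hD, cN, cD, lN, lD, ?_⟩
  rw [← t1.prod, ← t2.prod]
  exact diw_rel t1.cop t2.cop cN cD hrel

theorem diw_wq {s : ℕ} (w : (Fin s → ℕ) × (Fin s → ℕ)) :
    wq w = (wt w.1 : ℚ) / wt w.2 := by
  unfold wq wt
  rw [Nat.cast_prod, Nat.cast_prod]

theorem diw_thm (h1 : S_TSL) (h2 : S_GCH) : S_DIW := by
  intro c ε C0 hc hc1 hε hε1 hC0
  obtain ⟨δ0, hδ0, hT⟩ := h1 (c / 4) (1 + 12 * C0) (by positivity) (by linarith)
  obtain ⟨δ, hδ⟩ : ∃ δ : ℝ, δ = min 1 δ0 := ⟨_, rfl⟩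
  have hδp : 0 < δ := by rw [hδ]; exact lt_min one_pos hδ0
  have hδ1 : δ ≤ 1 := by rw [hδ]; exact min_le_left _ _
  have hδδ : δ ≤ δ0 := by rw [hδ]; exact min_le_right _ _
  obtain ⟨ζ, hζ⟩ : ∃ ζ : ℝ, ζ = δ * ε / (1000 * (1 + C0)) := ⟨_, rfl⟩
  have hζp : 0 < ζ := by rw [hζ]; positivity
  have hζ1 : ζ ≤ 1 / 1000 := by
    rw [hζ, div_le_div_iff₀ (by positivity) (by norm_num)]
    have : δ * ε ≤ 1 := by
      calc δ * ε ≤ 1 * 1 := mul_le_mul hδ1 hε1 hε.le zero_le_one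
        _ = 1 := one_mul 1
    nlinarith
  refine ⟨ζ, ζ, hζp, by linarith, hζp, by linarith, ?_⟩
  intro e he heC
  obtain ⟨R, hR⟩ : ∃ R : ℝ, R = 16 * (1 + C0) / (ε * e) := ⟨_, rfl⟩
  have hRp : 0 < R := by rw [hR]; positivity
  have hR1 : 1 ≤ R := by
    rw [hR, le_div_iff₀ (by positivity)]
    have : ε * e ≤ 1 * C0 := mul_le_mul hε1 heC he.le zero_le_one
    linarith
  have hRe : R * (ε * e) = 16 * (1 + C0) := by
    rw [hR]
    exact div_mul_cancel₀ _ (by positivity)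
  obtain ⟨G0, hG01, hTS⟩ := hT R hR1
  have hG0p : 0 < G0 := by linarith
  refine ⟨max 1 (max (20 / (ζ * e)) (2 * G0 / e)), max 3 (Real.exp (G0 * C0)), le_max_left _ _,
    le_max_left _ _, ?_⟩
  intro X h0 Z T x E s hX hκ hZ1 hZs hTp hlo hup hE
  have hX3 : 3 ≤ X := (le_max_left _ _).trans hX
  have hX0 : 0 < X := by linarith
  obtain ⟨L, hL⟩ : ∃ L : ℝ, L = Real.log X := ⟨_, rfl⟩
  have hL1 : 1 ≤ L := by
    rw [hL, Real.le_log_iff_exp_le hX0]
    have := Real.exp_one_lt_d9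
    linarith
  have hLp : 0 < L := by linarith
  have hLG : G0 * C0 ≤ L := by
    rw [hL, Real.le_log_iff_exp_le hX0]
    exact (le_max_right _ _).trans hX
  rw [← hL] at hκ hE
  obtain ⟨G, hG⟩ : ∃ G : ℝ, G = h0 / L := ⟨_, rfl⟩
  rw [← hG] at hE
  have hGL : G * L = h0 := by rw [hG]; exact div_mul_cancel₀ _ hLp.ne'
  have hκG : max 1 (max (20 / (ζ * e)) (2 * G0 / e)) ≤ G := by
    rw [hG, le_div_iff₀ hLp]
    exact hκ
  have hG1 : 1 ≤ G := (le_max_left _ _).trans hκG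
  have hGa : 20 ≤ ζ * (e * G) := by
    have h3 := ((le_max_left _ _).trans (le_max_right _ _)).trans hκG
    rw [div_le_iff₀ (by positivity)] at h3
    linarith
  have hGb : 2 * G0 ≤ e * G := by
    have h3 := ((le_max_right _ _).trans (le_max_right _ _)).trans hκG
    rw [div_le_iff₀ he] at h3
    linarith
  have hGp : 0 < G := by linarith
  have hh0 : 0 < h0 := by rw [← hGL]; positivity
  obtain ⟨g, hg1, hg2, hg3⟩ := h2 T (fun t => (x t : ℝ) * Real.log t) (e * G) ζ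
    (fun t ht => ⟨(hTp t ht).1, mul_nonneg (Nat.cast_nonneg _) (Real.log_natCast_nonneg t)⟩)
    hζp (by linarith) hGa
  set T' := T.filter (fun t => ¬ t ∣ g) with hT'
  have heG : 0 < e * G := by positivity
  have hg4 : e * G / 2 ≤ g := by
    refine le_trans ?_ hg1
    nlinarith
  have hgp : (0 : ℝ) < g := by linarith
  have hgG0 : G0 ≤ g := by linarith
  have hgh : G0 * g ≤ h0 := by
    have a1 : (g : ℝ) ≤ C0 * G := hg2.trans (mul_le_mul_of_nonneg_right heC hGp.le)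
    calc G0 * g ≤ G0 * (C0 * G) := mul_le_mul_of_nonneg_left a1 hG0p.le
      _ = G0 * C0 * G := by ring
      _ ≤ L * G := mul_le_mul_of_nonneg_right hLG hGp.le
      _ = h0 := by rw [mul_comm]; exact hGL
  -- R g
  have hRg : 8 * (1 + C0) * G ≤ ε * (R * g) := by
    have a1 : R * (e * G / 2) ≤ R * g := mul_le_mul_of_nonneg_left hg4 hRp.le
    have a2 := mul_le_mul_of_nonneg_left a1 hε.le
    have a3 : ε * (R * (e * G / 2)) = 8 * (1 + C0) * G := by
      have : ε * (R * (e * G / 2)) = R * (ε * e) * (G / 2) := by ring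
      rw [this, hRe]
      ring
    linarith
  have hRgp : 0 < R * g := by positivity
  have hRg1 : 1 ≤ R * g := by
    have a1 : ε * (R * g) ≤ 1 * (R * g) := mul_le_mul_of_nonneg_right hε1 hRgp.le
    nlinarith
  have hhR : h0 / (R * g) ≤ ε * L / 8 := by
    rw [div_le_iff₀ hRgp]
    have a1 : ε * L / 8 * (R * g) = ε * (R * g) * (L / 8) := by ring
    rw [a1]
    have a2 := mul_le_mul_of_nonneg_right hRg (show 0 ≤ L / 8 by positivity)
    have a3 : 8 * (1 + C0) * G * (L / 8) = (1 + C0) * (G * L) := by ring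
    rw [a3, hGL] at a2
    nlinarith
  have hδR : δ / R * h0 = δ * (ε * e) * h0 / (16 * (1 + C0)) := by
    rw [← hRe]
    field_simp
  -- exponents
  set m : ℕ → ℕ := fun t => ⌈(x t : ℝ) / (R * g)⌉₊ with hm
  have hm1 : ∀ t, (m t : ℝ) ≤ x t / (R * g) + 1 := fun t =>
    (Nat.ceil_lt_add_one (by positivity)).le
  have hm2 : ∀ t, (x t : ℝ) ≤ R * g * m t := by
    intro t
    have := Nat.le_ceil ((x t : ℝ) / (R * g))
    rw [div_le_iff₀ hRgp] at this
    linarith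
  have hm3 : ∀ t, 1 ≤ x t → 1 ≤ m t ∧ m t ≤ x t := by
    intro t ht
    have hx1 : (1 : ℝ) ≤ x t := by exact_mod_cast ht
    constructor
    · exact Nat.one_le_iff_ne_zero.2 (Nat.ceil_pos.2 (by positivity)).ne'
    · refine Nat.ceil_le.2 ?_
      rw [div_le_iff₀ hRgp]
      nlinarith
  set q : ℕ := ∏ t ∈ T, t ^ x t with hq
  have htq : ∀ t ∈ T, t ^ x t ∣ q := fun t ht => Finset.dvd_prod_of_mem _ ht
  set M : ℕ := ∏ t ∈ T', t ^ m t with hM
  have hM0 : 0 < M := Finset.prod_pos fun t ht =>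
    pow_pos (hTp t (Finset.mem_filter.1 ht).1).1.pos _
  have hMlog := diw_M (m := m) (g := g) hRgp hTp (fun t _ => hm1 t) hup
  rw [← hT', ← hM] at hMlog
  have hcM : ∀ n : ℕ, n.Coprime q → n.Coprime M := by
    intro n hn
    refine Nat.Coprime.prod_right fun t ht => ?_
    have htT := (Finset.mem_filter.1 ht).1
    refine Nat.Coprime.pow_right _ ?_
    refine Nat.Coprime.coprime_dvd_right ?_ hn
    exact (dvd_pow_self t (Nat.one_le_iff_ne_zero.1 (hTp t htT).2)).trans (htq t htT)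
  -- exponents in the class
  obtain ⟨Δ, hΔ⟩ : ∃ Δ : ℝ, Δ = 2 * ζ * (e * G) := ⟨_, rfl⟩
  have hΔ0 : 0 ≤ Δ := by rw [hΔ]; positivity
  have hEg : ∀ j ∈ E, g ≤ j ∧ (j : ℝ) ≤ g + Δ := by
    intro j hj
    obtain ⟨b1, b2⟩ := hE j hj
    constructor
    · have : (g : ℝ) ≤ j := hg2.trans b1
      exact_mod_cast this
    · rw [hΔ]
      linarith
  -- logarithms of the tuples
  have hlw : ∀ y : Fin s → ℕ, Tup q g Z Δ y → Real.log (wt y) ≤ 6 * L := by
    intro y hy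
    have b1 : (wt y : ℝ) ≤ X ^ 6 := hy.wt_le.trans hZs
    have b2 : (0 : ℝ) < wt y := by exact_mod_cast diw_wt_pos y
    have b3 := Real.log_le_log b2 b1
    rw [Real.log_pow, ← hL] at b3
    push_cast at b3
    exact b3
  have hlz : ∀ y : Fin s → ℕ, Tup q g Z Δ y → Real.log (zt g y) ≤ 12 * ζ * e * h0 := by
    intro y hy
    refine hy.log_zt.trans ?_
    have b1 := mul_le_mul_of_nonneg_left (hlw y hy) hΔ0
    refine b1.trans (le_of_eq ?_)
    rw [hΔ, ← hGL]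
    ring
  have hfin : 26 * ζ * e * h0 ≤ δ / R * h0 := by
    rw [hδR, hζ, le_div_iff₀ (by positivity)]
    have b0 : δ * ε / (1000 * (1 + C0)) * (1000 * (1 + C0)) = δ * ε :=
      div_mul_cancel₀ _ (by positivity)
    have b1 : 26 * (δ * ε / (1000 * (1 + C0))) * e * h0 * (16 * (1 + C0)) =
        (δ * ε / (1000 * (1 + C0)) * (1000 * (1 + C0))) * (e * h0 * (416 / 1000)) := by
      ring
    rw [b1, b0]
    have b2 : 0 ≤ δ * ε * e * h0 := by positivity
    nlinarith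
  have hδ0R : δ / R * h0 ≤ δ0 / R * h0 :=
    mul_le_mul_of_nonneg_right (div_le_div_of_nonneg_right hδδ hRp.le) hh0.le
  have hTSC : TSC R δ G0 (1 + 12 * C0) (c / 4) := by
    intro g T x m Y1 Y2 W1 W2 N D h0' hap c1 c2 c3 c4 c5 c6
    have hh0' : 0 ≤ h0' := by
      refine le_trans ?_ c2
      positivity
    have c7 : δ / R * h0' ≤ δ0 / R * h0' :=
      mul_le_mul_of_nonneg_right (div_le_div_of_nonneg_right hδδ hRp.le) hh0'
    exact hTS g T x m Y1 Y2 W1 W2 N D h0' hap c1 c2 (c3.trans c7) (c4.trans c7) c5 c6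
  have hwT : c / 4 * h0 ≤ ∑ t ∈ T', (x t : ℝ) * Real.log t := by
    have b1 : c * h0 ≤ 3 * ∑ t ∈ T', (x t : ℝ) * Real.log t := hlo.trans hg3
    nlinarith [mul_pos hc hh0]
  obtain ⟨A0, hA0⟩ : ∃ A0 : ℕ, A0 = ⌊X ^ (ε / 8)⌋₊ := ⟨_, rfl⟩
  have hexp : Real.exp (ε / 8 * L) = X ^ (ε / 8) := by
    rw [hL, Real.rpow_def_of_pos hX0, mul_comm]
  have hAbd : ∀ a : ℕ, 0 < a → g * Real.log a ≤ δ / R * h0 → a ∈ Finset.Icc 1 A0 := by
    intro a ha hlog
    rw [Finset.mem_Icc]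
    refine ⟨ha, ?_⟩
    rw [hA0]
    refine Nat.le_floor ?_
    rw [← hexp, ← Real.log_le_iff_le_exp (by exact_mod_cast ha)]
    have b1 : Real.log a ≤ δ / R * h0 / g := by
      rw [le_div_iff₀ hgp, mul_comm]
      exact hlog
    have b2 : δ / R * h0 / g = δ * (h0 / (R * g)) := by
      field_simp
    rw [b2] at b1
    have b3 : δ * (h0 / (R * g)) ≤ 1 * (h0 / (R * g)) :=
      mul_le_mul_of_nonneg_right hδ1 (by positivity)
    linarith
  have hcnt := diw_count (EnS (Sml q) (Cls q Z E) (un q) s (ζ * e * h0)) wq M A0 hM0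
    (fun w => ((wt w.1 : ℕ) : ZMod M) * ((wt w.2 : ℕ) : ZMod M)⁻¹) (by
      intro w1 hw1 w2 hw2 hκ12
      obtain ⟨t1, t1', N1, D1, hN1, hD1, cN1, cD1, lN1, lD1, r1⟩ := diw_mem hEg hw1
      obtain ⟨t2, t2', N2, D2, hN2, hD2, cN2, cD2, lN2, lD2, r2⟩ := diw_mem hEg hw2
      have p1 := diw_wt_pos w1.1
      have p1' := diw_wt_pos w1.2
      have p2 := diw_wt_pos w2.1
      have p2' := diw_wt_pos w2.2
      have z1 := diw_zt_pos g w1.1
      have z1' := diw_zt_pos g w1.2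
      have z2 := diw_zt_pos g w2.1
      have z2' := diw_zt_pos g w2.2
      have hmodM : ((wt w1.1 * wt w2.2 : ℕ) : ZMod M) = ((wt w2.1 * wt w1.2 : ℕ) : ZMod M) := by
        have d1 := ZMod.coe_mul_inv_eq_one (wt w1.2) (hcM _ t1'.wt_cop)
        have d2 := ZMod.coe_mul_inv_eq_one (wt w2.2) (hcM _ t2'.wt_cop)
        have hκ' : ((wt w1.1 : ℕ) : ZMod M) * ((wt w1.2 : ℕ) : ZMod M)⁻¹ =
          ((wt w2.1 : ℕ) : ZMod M) * ((wt w2.2 : ℕ) : ZMod M)⁻¹ := hκ12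
        push_cast
        calc ((wt w1.1 : ℕ) : ZMod M) * (wt w2.2 : ℕ)
            = ((wt w1.1 : ℕ) : ZMod M) * (wt w2.2 : ℕ) *
              (((wt w1.2 : ℕ) : ZMod M) * ((wt w1.2 : ℕ) : ZMod M)⁻¹) := by rw [d1, mul_one]
          _ = (((wt w1.1 : ℕ) : ZMod M) * ((wt w1.2 : ℕ) : ZMod M)⁻¹) *
              ((wt w2.2 : ℕ) * (wt w1.2 : ℕ)) := by ring
          _ = (((wt w2.1 : ℕ) : ZMod M) * ((wt w2.2 : ℕ) : ZMod M)⁻¹) *
              ((wt w2.2 : ℕ) * (wt w1.2 : ℕ)) := by rw [hκ']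
          _ = ((wt w2.1 : ℕ) : ZMod M) * (wt w1.2 : ℕ) *
              (((wt w2.2 : ℕ) : ZMod M) * ((wt w2.2 : ℕ) : ZMod M)⁻¹) := by ring
          _ = ((wt w2.1 : ℕ) : ZMod M) * (wt w1.2 : ℕ) := by rw [d2, mul_one]
      have hmodM2 : (M : ℤ) ∣ ((wt w1.1 * wt w2.2 : ℕ) : ℤ) - ((wt w2.1 * wt w1.2 : ℕ) : ℤ) :=
        Nat.modEq_iff_dvd.1 ((ZMod.natCast_eq_natCast_iff _ _ _).1 hmodM).symm
      have hrel : (wt w1.1 * wt w2.2) ^ g * (zt g w1.1 * zt g w2.2 * D1 * N2) ≡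
          (wt w2.1 * wt w1.2) ^ g * (zt g w1.2 * zt g w2.1 * N1 * D2) [MOD q] := by
        have f1 := Nat.ModEq.mul r1 r2.symm
        have f2 : wt w1.1 ^ g * zt g w1.1 * D1 * (wt w2.2 ^ g * zt g w2.2 * N2) =
            (wt w1.1 * wt w2.2) ^ g * (zt g w1.1 * zt g w2.2 * D1 * N2) := by
          rw [mul_pow]
          ring
        have f3 : wt w1.2 ^ g * zt g w1.2 * N1 * (wt w2.1 ^ g * zt g w2.1 * D2) =
            (wt w2.1 * wt w1.2) ^ g * (zt g w1.2 * zt g w2.1 * N1 * D2) := by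
          rw [mul_pow]
          ring
        rw [f2, f3] at f1
        exact f1
      have hlog4 : ∀ a b a' b' : ℕ, 0 < a → 0 < b → 0 < a' → 0 < b' →
          Real.log a ≤ 12 * ζ * e * h0 → Real.log b ≤ 12 * ζ * e * h0 →
          Real.log a' ≤ ζ * e * h0 → Real.log b' ≤ ζ * e * h0 →
          Real.log ((a * b * a' * b' : ℕ) : ℝ) ≤ δ / R * h0 := by
        intro a b a' b' ha hb ha' hb' l1 l2 l3 l4
        push_cast
        rw [Real.log_mul (by positivity) (by positivity), Real.log_mul (by positivity)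
          (by positivity), Real.log_mul (by positivity) (by positivity)]
        linarith
      have hlogW : ∀ y y' : Fin s → ℕ, Tup q g Z Δ y → Tup q g Z Δ y' →
          Real.log ((wt y * wt y' : ℕ) : ℝ) ≤ (1 + 12 * C0) * h0 / g := by
        intro y y' hy hy'
        have q1 := diw_wt_pos y
        have q2 := diw_wt_pos y'
        rw [Nat.cast_mul, Real.log_mul (by positivity) (by positivity), le_div_iff₀ hgp]
        have l1 := add_le_add (hlw y hy) (hlw y' hy')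
        have l2 := mul_le_mul_of_nonneg_right l1 hgp.le
        refine l2.trans ?_
        have a1 : (g : ℝ) ≤ C0 * G := hg2.trans (mul_le_mul_of_nonneg_right heC hGp.le)
        have a2 : (6 * L + 6 * L) * (g : ℝ) ≤ (6 * L + 6 * L) * (C0 * G) :=
          mul_le_mul_of_nonneg_left a1 (by positivity)
        have a3 : (6 * L + 6 * L) * (C0 * G) = 12 * C0 * (G * L) := by ring
        rw [a3, hGL] at a2
        linarith
      obtain ⟨a, b, ha, hb, la, lb, hab⟩ := diw_core hTSC (q := q) (g := g) (T' := T') (x := x)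
        (m := m) (W1 := wt w1.1 * wt w2.2) (W2 := wt w2.1 * wt w1.2)
        (A := zt g w1.1 * zt g w2.2 * D1 * N2) (B := zt g w1.2 * zt g w2.1 * N1 * D2)
        (by positivity) (by positivity) (by positivity) (by positivity)
        (Nat.Coprime.mul_left t1.wt_cop t2'.wt_cop) (Nat.Coprime.mul_left t2.wt_cop t1'.wt_cop)
        (Nat.Coprime.mul_left (Nat.Coprime.mul_left (Nat.Coprime.mul_left t1.zt_cop t2'.zt_cop)
          cD1) cN2)
        (Nat.Coprime.mul_left (Nat.Coprime.mul_left (Nat.Coprime.mul_left t1'.zt_cop t2.zt_cop)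
          cN1) cD2)
        hrel
        (fun t ht => ⟨(hTp t (Finset.mem_filter.1 ht).1).1, htq t (Finset.mem_filter.1 ht).1,
          (hTp t (Finset.mem_filter.1 ht).1).2⟩)
        (fun t ht => (Finset.mem_filter.1 ht).2)
        (fun t ht => ⟨(hm3 t (hTp t (Finset.mem_filter.1 ht).1).2).1,
          (hm3 t (hTp t (Finset.mem_filter.1 ht).1).2).2, hm2 t⟩)
        (fun t ht => by
          have f1 : ((t ^ m t : ℕ) : ℤ) ∣ (M : ℤ) :=
            Int.natCast_dvd_natCast.2 (Finset.dvd_prod_of_mem _ ht)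
          have f2 := f1.trans hmodM2
          rw [Nat.cast_pow] at f2
          exact f2)
        hgG0 hgh
        (hlog4 _ _ _ _ z1 z2' hD1 hN2 (hlz _ t1) (hlz _ t2') lD1 lN2)
        (hlog4 _ _ _ _ z1' z2 hN1 hD2 (hlz _ t1') (hlz _ t2) lN1 lD2)
        (hlogW _ _ t1 t2') (hlogW _ _ t2 t1') hwT
      refine ⟨a, hAbd a ha la, b, hAbd b hb lb, ?_⟩
      rw [diw_wq, diw_wq]
      have q1 : (wt w1.2 : ℚ) ≠ 0 := by exact_mod_cast p1'.ne'
      have q2 : (wt w2.2 : ℚ) ≠ 0 := by exact_mod_cast p2'.ne'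
      have q3 : (b : ℚ) ≠ 0 := by exact_mod_cast hb.ne'
      have habQ : (wt w1.1 : ℚ) * wt w2.2 * b = wt w2.1 * wt w1.2 * a := by exact_mod_cast hab
      rw [div_mul_eq_mul_div, div_div, div_eq_div_iff q1 (mul_ne_zero q2 q3)]
      linarith)
  -- final computation
  have hXr : 1 ≤ X ^ (ε / 8) := Real.one_le_rpow (by linarith) (by positivity)
  have hAle : (A0 : ℝ) ≤ X ^ (ε / 8) := by rw [hA0]; exact Nat.floor_le (by positivity)
  have hP0 : 0 < ∏ t ∈ T, t := Finset.prod_pos fun t ht => (hTp t ht).1.pos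
  have hP0r : (0 : ℝ) < ((∏ t ∈ T, t : ℕ) : ℝ) := by exact_mod_cast hP0
  have hMr : (0 : ℝ) < M := by exact_mod_cast hM0
  have hMle : (M : ℝ) ≤ ((∏ t ∈ T, t : ℕ) : ℝ) * X ^ (ε / 4) := by
    rw [← Real.log_le_log_iff hMr (by positivity), Real.log_mul hP0r.ne' (by positivity),
      Real.log_rpow hX0, ← hL]
    have b1 : 2 * h0 / (R * g) = 2 * (h0 / (R * g)) := by ring
    rw [b1] at hMlog
    linarith
  have hfinal : (((EnS (Sml q) (Cls q Z E) (un q) s (ζ * e * h0)).image wq).card : ℝ) ≤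
      M * ((A0 : ℝ) * A0) := by exact_mod_cast hcnt
  refine hfinal.trans ?_
  have b2 : (A0 : ℝ) * A0 ≤ X ^ (ε / 8) * X ^ (ε / 8) :=
    mul_le_mul hAle hAle (Nat.cast_nonneg _) (by positivity)
  calc (M : ℝ) * ((A0 : ℝ) * A0) ≤ (((∏ t ∈ T, t : ℕ) : ℝ) * X ^ (ε / 4)) *
        (X ^ (ε / 8) * X ^ (ε / 8)) := mul_le_mul hMle b2 (by positivity) (by positivity)
    _ = ((∏ t ∈ T, t : ℕ) : ℝ) * (X ^ (ε / 4) * (X ^ (ε / 8) * X ^ (ε / 8))) := by ring
    _ = ((∏ t ∈ T, t : ℕ) : ℝ) * X ^ (ε / 2) := by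
        rw [← Real.rpow_add hX0, ← Real.rpow_add hX0]
        have : ε / 4 + (ε / 8 + ε / 8) = ε / 2 := by ring
        rw [this]
    _ ≤ ((∏ t ∈ T, t : ℕ) : ℝ) * X ^ ε := by
        refine mul_le_mul_of_nonneg_left ?_ hP0r.le
        exact Real.rpow_le_rpow_of_exponent_le (by linarith) (by linarith)

end Pool.EXC
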