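import Pool.Agent.H46.EXC.Stmts

/-!
# EXC, module DIW: few quotients (first part)
-/

set_option autoImplicit false

namespace Pool.EXC

open Finset Pool.Agent.H98.ABCR Pool.SHA Pool.ABY Pool.VIO

theorem diw_rad_pos (n : ℕ) : 0 < rad n :=
  Finset.prod_pos fun _ hp => (Nat.prime_of_mem_primeFactors hp).pos

/-- the cofactor of the `g`-th power of the radical -/
def zc (g n : ℕ) : ℕ := ∏ p ∈ n.primeFactors, p ^ (n.factorization p - g)

theorem diw_zc_pos (g n : ℕ) : 0 < zc g n :=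
  Finset.prod_pos fun _ hp => pow_pos (Nat.prime_of_mem_primeFactors hp).pos _

theorem diw_fac {g n : ℕ} (hn : 0 < n) (hg : ∀ p ∈ n.primeFactors, g ≤ n.factorization p) :
    n = rad n ^ g * zc g n := by
  have h1 : n = ∏ p ∈ n.primeFactors, p ^ n.factorization p := by
    conv_lhs => rw [← Nat.factorization_prod_pow_eq_self hn.ne']
    rw [Nat.prod_factorization_eq_prod_primeFactors]
  have h2 : rad n ^ g * zc g n = ∏ p ∈ n.primeFactors, p ^ n.factorization p := by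
    unfold rad zc
    rw [← Finset.prod_pow, ← Finset.prod_mul_distrib]
    refine Finset.prod_congr rfl fun p hp => ?_
    rw [← pow_add, Nat.add_sub_cancel' (hg p hp)]
  rw [h2]
  exact h1

theorem diw_log_zc {g n : ℕ} {Δ : ℝ}
    (h : ∀ p ∈ n.primeFactors, g ≤ n.factorization p ∧ (n.factorization p : ℝ) ≤ g + Δ) :
    Real.log (zc g n) ≤ Δ * Real.log (rad n) := by
  unfold zc rad
  rw [Nat.cast_prod, Nat.cast_prod, Real.log_prod, Real.log_prod, Finset.mul_sum]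
  · refine Finset.sum_le_sum fun p hp => ?_
    rw [Nat.cast_pow, Real.log_pow, Nat.cast_sub (h p hp).1]
    refine mul_le_mul_of_nonneg_right ?_ (Real.log_natCast_nonneg p)
    linarith [(h p hp).2]
  · intro p hp
    have := (Nat.prime_of_mem_primeFactors hp).pos
    positivity
  · intro p hp
    have := (Nat.prime_of_mem_primeFactors hp).pos
    positivity

theorem diw_rad_cop {q n : ℕ} (hn : 0 < n) (h : n.Coprime q) : (rad n).Coprime q := by
  unfold rad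
  refine Nat.Coprime.prod_left fun p hp => ?_
  exact Nat.Coprime.coprime_dvd_left (Nat.dvd_of_mem_primeFactors hp) h

theorem diw_zc_cop {g q n : ℕ} (hn : 0 < n) (h : n.Coprime q) : (zc g n).Coprime q := by
  unfold zc
  refine Nat.Coprime.prod_left fun p hp => ?_
  exact Nat.Coprime.pow_left _ (Nat.Coprime.coprime_dvd_left (Nat.dvd_of_mem_primeFactors hp) h)

/-! ## Tuples -/

/-- the product of the radicals -/
def wt {s : ℕ} (y : Fin s → ℕ) : ℕ := ∏ j, rad (y j)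

/-- the product of the cofactors -/
def zt {s : ℕ} (g : ℕ) (y : Fin s → ℕ) : ℕ := ∏ j, zc g (y j)

theorem diw_wt_pos {s : ℕ} (y : Fin s → ℕ) : 0 < wt y := Finset.prod_pos fun j _ => diw_rad_pos _

theorem diw_zt_pos {s : ℕ} (g : ℕ) (y : Fin s → ℕ) : 0 < zt g y :=
  Finset.prod_pos fun j _ => diw_zc_pos _ _

/-- hypotheses on a tuple -/
structure Tup {s : ℕ} (q g : ℕ) (Z Δ : ℝ) (y : Fin s → ℕ) : Prop where
  pos : ∀ j, 0 < y j
  cop : ∀ j, (y j).Coprime q
  rad : ∀ j, (rad (y j) : ℝ) ≤ Z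
  ex : ∀ j, ∀ p ∈ (y j).primeFactors, g ≤ (y j).factorization p ∧
    ((y j).factorization p : ℝ) ≤ g + Δ

theorem Tup.prod {s q g : ℕ} {Z Δ : ℝ} {y : Fin s → ℕ} (h : Tup q g Z Δ y) :
    ∏ j, y j = wt y ^ g * zt g y := by
  unfold wt zt
  rw [← Finset.prod_pow, ← Finset.prod_mul_distrib]
  exact Finset.prod_congr rfl fun j _ => diw_fac (h.pos j) fun p hp => (h.ex j p hp).1

theorem Tup.wt_cop {s q g : ℕ} {Z Δ : ℝ} {y : Fin s → ℕ} (h : Tup q g Z Δ y) :
    (wt y).Coprime q :=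
  Nat.Coprime.prod_left fun j _ => diw_rad_cop (h.pos j) (h.cop j)

theorem Tup.zt_cop {s q g : ℕ} {Z Δ : ℝ} {y : Fin s → ℕ} (h : Tup q g Z Δ y) :
    (zt g y).Coprime q :=
  Nat.Coprime.prod_left fun j _ => diw_zc_cop (h.pos j) (h.cop j)

theorem Tup.wt_le {s q g : ℕ} {Z Δ : ℝ} {y : Fin s → ℕ} (h : Tup q g Z Δ y) :
    (wt y : ℝ) ≤ Z ^ s := by
  unfold wt
  rw [Nat.cast_prod]
  calc ∏ j, (Pool.Agent.H98.ABCR.rad (y j) : ℝ) ≤ ∏ _j : Fin s, Z :=
        Finset.prod_le_prod (fun j _ => Nat.cast_nonneg _) fun j _ => h.rad j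
    _ = Z ^ s := by rw [Finset.prod_const, Finset.card_univ, Fintype.card_fin]

theorem Tup.log_zt {s q g : ℕ} {Z Δ : ℝ} {y : Fin s → ℕ} (h : Tup q g Z Δ y) :
    Real.log (zt g y) ≤ Δ * Real.log (wt y) := by
  unfold wt zt
  rw [Nat.cast_prod, Nat.cast_prod, Real.log_prod, Real.log_prod, Finset.mul_sum]
  · exact Finset.sum_le_sum fun j _ => diw_log_zc (h.ex j)
  · intro j _
    have := diw_rad_pos (y j)
    positivity
  · intro j _
    have := diw_zc_pos g (y j)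
    positivity

/-! ## The relation -/

theorem un_coe {q n : ℕ} (h : n.Coprime q) : ((un q n : (ZMod q)ˣ) : ZMod q) = n := by
  unfold un
  rw [dif_pos h]
  exact ZMod.coe_unitOfCoprime n h

theorem diw_rel {s q : ℕ} {y y' : Fin s → ℕ} {N D : ℕ} (hy : ∀ j, (y j).Coprime q)
    (hy' : ∀ j, (y' j).Coprime q) (hN : N.Coprime q) (hD : D.Coprime q)
    (h : (∏ j, un q (y j)) * (∏ j, un q (y' j))⁻¹ = un q N * (un q D)⁻¹) :
    (∏ j, y j) * D ≡ (∏ j, y' j) * N [MOD q] := by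
  rw [← ZMod.natCast_eq_natCast_iff]
  have h1 : (∏ j, un q (y j)) * un q D = (∏ j, un q (y' j)) * un q N := by
    calc (∏ j, un q (y j)) * un q D
        = ((∏ j, un q (y j)) * (∏ j, un q (y' j))⁻¹) * ((∏ j, un q (y' j)) * un q D) := by
          group
      _ = (un q N * (un q D)⁻¹) * ((∏ j, un q (y' j)) * un q D) := by rw [h]
      _ = (∏ j, un q (y' j)) * un q N := by
          rw [mul_comm (∏ j, un q (y' j)) (un q D)]
          rw [mul_assoc, inv_mul_cancel_left, mul_comm]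
  have h2 := congrArg (fun u : (ZMod q)ˣ => (u : ZMod q)) h1
  simp only [Units.val_mul, Units.coe_prod] at h2
  rw [un_coe hN, un_coe hD, Finset.prod_congr rfl fun j _ => un_coe (hy j),
    Finset.prod_congr rfl fun j _ => un_coe (hy' j)] at h2
  push_cast
  exact h2

/-- the conclusion of TSL -/
def TSC (R δ G0 C1 c' : ℝ) : Prop :=
  ∀ (g : ℕ) (T : Finset ℕ) (x m : ℕ → ℕ) (Y1 Y2 W1 W2 N D : ℕ) (h0 : ℝ),
    Apx R g T x m Y1 Y2 W1 W2 N D → G0 ≤ g → G0 * g ≤ h0 →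
    Real.log N ≤ δ / R * h0 → Real.log D ≤ δ / R * h0 →
    Real.log W1 ≤ C1 * h0 / g → Real.log W2 ≤ C1 * h0 / g →
    ∑ t ∈ T, (x t : ℝ) * Real.log t < c' * h0

theorem diw_not_dvd {t q n : ℕ} (ht : t.Prime) (htq : t ∣ q) (hn : n.Coprime q) : ¬ t ∣ n := by
  intro h
  exact (Nat.Prime.not_coprime_iff_dvd.2 ⟨t, ht, h, htq⟩) hn

theorem diw_core {R δ G0 C1 c' h0 : ℝ} (hTS : TSC R δ G0 C1 c') {q g : ℕ} {T' : Finset ℕ}
    {x m : ℕ → ℕ} {W1 W2 A B : ℕ} (hW1 : 0 < W1) (hW2 : 0 < W2) (hA : 0 < A) (hB : 0 < B)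
    (cW1 : W1.Coprime q) (cW2 : W2.Coprime q) (cA : A.Coprime q) (cB : B.Coprime q)
    (hrel : W1 ^ g * A ≡ W2 ^ g * B [MOD q])
    (hT : ∀ t ∈ T', t.Prime ∧ t ^ x t ∣ q ∧ 1 ≤ x t) (htg : ∀ t ∈ T', ¬ t ∣ g)
    (hmx : ∀ t ∈ T', 1 ≤ m t ∧ m t ≤ x t ∧ (x t : ℝ) ≤ R * g * m t)
    (hmod : ∀ t ∈ T', (t : ℤ) ^ m t ∣ (W1 : ℤ) - W2)
    (hG : G0 ≤ g) (hGh : G0 * g ≤ h0)
    (lA : Real.log A ≤ δ / R * h0) (lB : Real.log B ≤ δ / R * h0)
    (lW1 : Real.log W1 ≤ C1 * h0 / g) (lW2 : Real.log W2 ≤ C1 * h0 / g)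
    (hwt : c' * h0 ≤ ∑ t ∈ T', (x t : ℝ) * Real.log t) :
    ∃ a b : ℕ, 0 < a ∧ 0 < b ∧ g * Real.log a ≤ δ / R * h0 ∧ g * Real.log b ≤ δ / R * h0 ∧
      W1 * b = W2 * a := by
  obtain ⟨N, hN⟩ : Nat.gcd A B ∣ A := Nat.gcd_dvd_left _ _
  obtain ⟨D, hD⟩ : Nat.gcd A B ∣ B := Nat.gcd_dvd_right _ _
  set d := Nat.gcd A B with hd
  have hd0 : 0 < d := Nat.gcd_pos_of_pos_left _ hA
  have hN0 : 0 < N := Nat.pos_of_mul_pos_left (hN ▸ hA)
  have hD0 : 0 < D := Nat.pos_of_mul_pos_left (hD ▸ hB)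
  have hcop : N.Coprime D := by
    have h1 : d * Nat.gcd N D = d := by
      rw [← Nat.gcd_mul_left, ← hN, ← hD]
    exact Nat.eq_of_mul_eq_mul_left hd0 (by rw [h1, mul_one])
  have cd : d.Coprime q := Nat.Coprime.coprime_dvd_left (Nat.gcd_dvd_left A B) cA
  have cN : N.Coprime q := Nat.Coprime.coprime_dvd_left (Dvd.intro_left _ hN.symm) cA
  have cD : D.Coprime q := Nat.Coprime.coprime_dvd_left (Dvd.intro_left _ hD.symm) cB
  have hrel2 : W1 ^ g * N ≡ W2 ^ g * D [MOD q] := by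
    have h1 : W1 ^ g * N * d ≡ W2 ^ g * D * d [MOD q] := by
      have e1 : W1 ^ g * N * d = W1 ^ g * A := by rw [hN]; ring
      have e2 : W2 ^ g * D * d = W2 ^ g * B := by rw [hD]; ring
      rw [e1, e2]
      exact hrel
    exact Nat.ModEq.cancel_right_of_coprime (Nat.Coprime.symm cd) h1
  have lN : Real.log N ≤ δ / R * h0 := by
    refine le_trans (Real.log_le_log (by exact_mod_cast hN0) ?_) lA
    exact_mod_cast Nat.le_of_dvd hA (Dvd.intro_left _ hN.symm)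
  have lD : Real.log D ≤ δ / R * h0 := by
    refine le_trans (Real.log_le_log (by exact_mod_cast hD0) ?_) lB
    exact_mod_cast Nat.le_of_dvd hB (Dvd.intro_left _ hD.symm)
  have key : W1 ^ g * N = W2 ^ g * D := by
    by_contra hne
    have hdq : ∀ t ∈ T', t ∣ q := fun t ht =>
      (dvd_pow_self t (Nat.one_le_iff_ne_zero.1 (hT t ht).2.2)).trans (hT t ht).2.1
    have hap : Apx R g T' x m (W1 ^ g * N) (W2 ^ g * D) W1 W2 N D := by
      refine ⟨by positivity, by positivity, hW1, hW2, hN0, hD0, hcop, by ring, hne,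
        fun t ht => (hT t ht).1, htg, ?_, hmx, hmod, ?_⟩
      · intro t ht
        refine ⟨?_, ?_, ?_, ?_⟩
        · exact diw_not_dvd (hT t ht).1 (hdq t ht)
            (Nat.Coprime.mul_left (Nat.Coprime.pow_left _ cW1) cN)
        · exact diw_not_dvd (hT t ht).1 (hdq t ht)
            (Nat.Coprime.mul_left (Nat.Coprime.pow_left _ cW2) cD)
        · exact diw_not_dvd (hT t ht).1 (hdq t ht) cW1
        · exact diw_not_dvd (hT t ht).1 (hdq t ht) cW2
      · intro t ht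
        have h1 : (q : ℤ) ∣ ((W1 ^ g * N : ℕ) : ℤ) - ((W2 ^ g * D : ℕ) : ℤ) :=
          (Nat.modEq_iff_dvd.1 hrel2.symm)
        have h2 : ((t ^ x t : ℕ) : ℤ) ∣ (q : ℤ) := Int.natCast_dvd_natCast.2 (hT t ht).2.1
        have h3 := h2.trans h1
        rw [Nat.cast_pow] at h3
        exact h3
    have := hTS g T' x m _ _ W1 W2 N D h0 hap hG hGh lN lD lW1 lW2
    linarith
  obtain ⟨a, ha⟩ : Nat.gcd W1 W2 ∣ W1 := Nat.gcd_dvd_left _ _
  obtain ⟨b, hb⟩ : Nat.gcd W1 W2 ∣ W2 := Nat.gcd_dvd_right _ _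
  set k := Nat.gcd W1 W2 with hk
  have hk0 : 0 < k := Nat.gcd_pos_of_pos_left _ hW1
  have ha0 : 0 < a := Nat.pos_of_mul_pos_left (ha ▸ hW1)
  have hb0 : 0 < b := Nat.pos_of_mul_pos_left (hb ▸ hW2)
  have hab : a.Coprime b := by
    have h1 : k * Nat.gcd a b = k := by
      rw [← Nat.gcd_mul_left, ← ha, ← hb]
    exact Nat.eq_of_mul_eq_mul_left hk0 (by rw [h1, mul_one])
  have h3 : a ^ g * N = b ^ g * D := by
    have h4 : k ^ g * (a ^ g * N) = k ^ g * (b ^ g * D) := by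
      have e1 : k ^ g * (a ^ g * N) = W1 ^ g * N := by
        conv_rhs => rw [ha]
        rw [mul_pow]
        ring
      have e2 : k ^ g * (b ^ g * D) = W2 ^ g * D := by
        conv_rhs => rw [hb]
        rw [mul_pow]
        ring
      rw [e1, e2, key]
    exact Nat.eq_of_mul_eq_mul_left (pow_pos hk0 g) h4
  have hg1 : a ^ g = D := by
    refine Nat.dvd_antisymm ?_ ?_
    · exact (Nat.Coprime.pow g g hab).dvd_of_dvd_mul_left (Dvd.intro _ h3)
    · exact hcop.symm.dvd_of_dvd_mul_right (Dvd.intro_left _ h3.symm)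
  have hg2 : b ^ g = N := by
    refine Nat.dvd_antisymm ?_ ?_
    · exact (Nat.Coprime.pow g g hab).symm.dvd_of_dvd_mul_left (Dvd.intro _ h3.symm)
    · exact hcop.dvd_of_dvd_mul_right (Dvd.intro_left _ h3)
  refine ⟨a, b, ha0, hb0, ?_, ?_, ?_⟩
  · have : (g : ℝ) * Real.log a = Real.log D := by
      rw [← hg1, Nat.cast_pow, Real.log_pow]
    rw [this]
    exact lD
  · have : (g : ℝ) * Real.log b = Real.log N := by
      rw [← hg2, Nat.cast_pow, Real.log_pow]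
    rw [this]
    exact lN
  · calc W1 * b = k * a * b := by rw [← ha]
      _ = k * b * a := by ring
      _ = W2 * a := by rw [← hb]

/-- counting: few values if in every class modulo `M` all values differ by small factors -/
theorem diw_count {σ : Type} (S : Finset σ) (f : σ → ℚ) (M A0 : ℕ) (hM : 0 < M)
    (κ : σ → ZMod M)
    (h : ∀ w1 ∈ S, ∀ w2 ∈ S, κ w1 = κ w2 → ∃ a ∈ Finset.Icc 1 A0, ∃ b ∈ Finset.Icc 1 A0,
      f w1 = f w2 * (a : ℚ) / b) :
    (S.image f).card ≤ M * (A0 * A0) := by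
  classical
  have : NeZero M := ⟨hM.ne'⟩
  set r : ZMod M → ℚ := fun c => if hc : ∃ w ∈ S, κ w = c then f hc.choose else 0 with hr
  have hsub : S.image f ⊆ ((Finset.univ : Finset (ZMod M)) ×ˢ
      (Finset.Icc 1 A0 ×ˢ Finset.Icc 1 A0)).image
        (fun z => r z.1 * (z.2.1 : ℚ) / z.2.2) := by
    intro t ht
    obtain ⟨w, hw, rfl⟩ := Finset.mem_image.1 ht
    have hc : ∃ w' ∈ S, κ w' = κ w := ⟨w, hw, rfl⟩
    obtain ⟨a, ha, b, hb, hab⟩ := h w hw hc.choose hc.choose_spec.1 hc.choose_spec.2.symm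
    refine Finset.mem_image.2 ⟨(κ w, (a, b)), ?_, ?_⟩
    · exact Finset.mem_product.2 ⟨Finset.mem_univ _, Finset.mem_product.2 ⟨ha, hb⟩⟩
    · simp only [hr]
      rw [dif_pos hc]
      exact hab.symm
  refine (Finset.card_le_card hsub).trans (Finset.card_image_le.trans ?_)
  rw [Finset.card_product, Finset.card_product, Finset.card_univ, ZMod.card, Nat.card_Icc,
    Nat.add_sub_cancel]

end Pool.EXC
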